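import Pool.Agent.Y419.VC.CHV

/-!
# Potentials of three variables: bounds of the partial derivatives, expansion along curves
-/

set_option autoImplicit false

namespace Pool.Agent.Y571.CRVX

open Finset Filter Topology Metric Asymptotics
open Pool.Agent.W711.HT hiding gd
open Pool.Agent.Y419.CHV
open scoped Real

/-- the hypotheses -/
structure Hs (ρ c C : ℝ) (s : ℂ → ℂ → ℂ → ℂ) : Prop where
  hρ : 0 < ρ
  hc : 0 < c
  hC : 0 < C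
  san : DifferentiableOn ℂ (fun p : ℂ × ℂ × ℂ => s p.1 p.2.1 p.2.2)
    (Rc (3 * ρ) (3 * ρ) ×ˢ Rc (3 * ρ) (3 * ρ) ×ˢ Rc (3 * ρ) (3 * ρ))
  sbd : ∀ ψ ∈ Rc (3 * ρ) (3 * ρ), ∀ ψ' ∈ Rc (3 * ρ) (3 * ρ), ∀ χ ∈ Rc (3 * ρ) (3 * ρ),
    ‖s ψ ψ' χ‖ ≤ C
  sym : ∀ ψ ∈ Rc (3 * ρ) (3 * ρ), ∀ ψ' ∈ Rc (3 * ρ) (3 * ρ), ∀ χ ∈ Rc (3 * ρ) (3 * ρ),
    s ψ ψ' χ = s ψ' ψ χ
  ev : ∀ ψ ∈ Rc (3 * ρ) (3 * ρ), ∀ ψ' ∈ Rc (3 * ρ) (3 * ρ), ∀ χ ∈ Rc (3 * ρ) (3 * ρ),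
    s (-ψ) ψ' χ = s ψ ψ' χ
  evc : ∀ ψ ∈ Rc (3 * ρ) (3 * ρ), ∀ ψ' ∈ Rc (3 * ρ) (3 * ρ), ∀ χ ∈ Rc (3 * ρ) (3 * ρ),
    s ψ ψ' (-χ) = s ψ ψ' χ
  conc : ∀ ψ ∈ Rc (3 * ρ) (3 * ρ), ∀ ψ' ∈ Rc (3 * ρ) (3 * ρ), ∀ χ ∈ Rc (3 * ρ) (3 * ρ),
    (deriv (deriv fun z => s z ψ' χ) ψ).re ≤ -c ∧ (deriv (deriv fun z => s ψ ψ' z) χ).re ≤ -c

/-- the potential at a fixed value of the third variable -/
def sx (s : ℂ → ℂ → ℂ → ℂ) (χ : ℂ) : ℂ → ℂ → ℂ := fun u v => s u v χ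

variable {ρ c C : ℝ} {s : ℂ → ℂ → ℂ → ℂ}

lemma neg_Rc {a b : ℝ} {u : ℂ} (hu : u ∈ Rc a b) : -u ∈ Rc a b := by
  refine ⟨?_, ?_⟩
  · rw [Complex.neg_re, abs_neg]; exact hu.1
  · rw [Complex.neg_im, abs_neg]; exact hu.2

lemma up (h : Hs ρ c C s) {u : ℂ} (hu : u ∈ Rc (2 * ρ) (2 * ρ)) : u ∈ Rc (3 * ρ) (3 * ρ) :=
  R23 h.hρ le_rfl hu

lemma sl12 (h : Hs ρ c C s) {χ : ℂ} (hχ : χ ∈ Rc (3 * ρ) (3 * ρ)) :
    DifferentiableOn ℂ (fun p : ℂ × ℂ => sx s χ p.1 p.2)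
      (Rc (3 * ρ) (3 * ρ) ×ˢ Rc (3 * ρ) (3 * ρ)) := by
  have h1 : DifferentiableOn ℂ (fun p : ℂ × ℂ => (p.1, p.2, χ))
      (Rc (3 * ρ) (3 * ρ) ×ˢ Rc (3 * ρ) (3 * ρ)) :=
    differentiableOn_fst.prodMk (differentiableOn_snd.prodMk (differentiableOn_const χ))
  exact h.san.comp h1 (fun p hp => ⟨hp.1, hp.2, hχ⟩)

lemma sl3 (h : Hs ρ c C s) {u v : ℂ} (hu : u ∈ Rc (3 * ρ) (3 * ρ)) (hv : v ∈ Rc (3 * ρ) (3 * ρ)) :
    DifferentiableOn ℂ (fun w => s u v w) (Rc (3 * ρ) (3 * ρ)) := by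
  have h1 : DifferentiableOn ℂ (fun w : ℂ => (u, v, w)) (Rc (3 * ρ) (3 * ρ)) :=
    (differentiableOn_const u).prodMk ((differentiableOn_const v).prodMk differentiableOn_id)
  exact h.san.comp h1 (fun p hp => ⟨hu, hv, hp⟩)

lemma sl1 (h : Hs ρ c C s) {v χ : ℂ} (hv : v ∈ Rc (3 * ρ) (3 * ρ)) (hχ : χ ∈ Rc (3 * ρ) (3 * ρ)) :
    DifferentiableOn ℂ (fun x => s x v χ) (Rc (3 * ρ) (3 * ρ)) :=
  slice1 (s := sx s χ) (sl12 h hχ) hv

lemma sl2 (h : Hs ρ c C s) {u χ : ℂ} (hu : u ∈ Rc (3 * ρ) (3 * ρ)) (hχ : χ ∈ Rc (3 * ρ) (3 * ρ)) :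
    DifferentiableOn ℂ (fun x => s u x χ) (Rc (3 * ρ) (3 * ρ)) :=
  slice2 (s := sx s χ) (sl12 h hχ) hu

lemma gbd (h : Hs ρ c C s) {u v χ : ℂ} (hu : u ∈ Rc (2 * ρ) (2 * ρ)) (hv : v ∈ Rc (2 * ρ) (2 * ρ))
    (hχ : χ ∈ Rc (2 * ρ) (2 * ρ)) : ‖gd (sx s χ) u v‖ ≤ 4 * C / ρ :=
  gd_bd h.hρ le_rfl (sl12 h (up h hχ)) (fun ψ hψ ψ' hψ' => h.sbd ψ hψ ψ' hψ' χ (up h hχ)) hu hv

lemma glip (h : Hs ρ c C s) {u v χ u' v' χ' : ℂ} (hu : u ∈ Rc (2 * ρ) (2 * ρ))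
    (hv : v ∈ Rc (2 * ρ) (2 * ρ)) (hχ : χ ∈ Rc (2 * ρ) (2 * ρ)) (hu' : u' ∈ Rc (2 * ρ) (2 * ρ))
    (hv' : v' ∈ Rc (2 * ρ) (2 * ρ)) (hχ' : χ' ∈ Rc (2 * ρ) (2 * ρ)) :
    ‖gd (sx s χ) u v - gd (sx s χ') u' v'‖ ≤
      16 * C / ρ ^ 2 * (‖u - u'‖ + ‖v - v'‖ + ‖χ - χ'‖) := by
  have h1 : ‖gd (sx s χ) u v - gd (sx s χ) u' v'‖ ≤ 16 * C / ρ ^ 2 * (‖u - u'‖ + ‖v - v'‖) :=
    gd_lip h.hρ le_rfl (sl12 h (up h hχ)) (fun ψ hψ ψ' hψ' => h.sbd ψ hψ ψ' hψ' χ (up h hχ))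
      hu hv hu' hv'
  have h2 : ‖gd (sx s χ) u' v' - gd (sx s χ') u' v'‖ ≤ 16 * C / ρ ^ 2 * ‖χ - χ'‖ := by
    have hd := sl1 h (up h hv') (up h hχ)
    have hd' := sl1 h (up h hv') (up h hχ')
    have hu3 := up h hu'
    have e : gd (sx s χ) u' v' - gd (sx s χ') u' v' =
        deriv (fun x => s x v' χ - s x v' χ') u' := by
      unfold gd sx
      rw [deriv_fun_sub (hd.differentiableAt ((Rc_open _ _).mem_nhds hu3))
        (hd'.differentiableAt ((Rc_open _ _).mem_nhds hu3))]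
    rw [e]
    have hρ := h.hρ
    have h3 := d1 (u := u') h.hρ le_rfl (hd.sub hd') (C := 4 * C / ρ * ‖χ - χ'‖) (fun x hx =>
      l0 h.hρ le_rfl (sl3 h hx (up h hv')) (fun y hy => h.sbd x hx v' (up h hv') y hy) hχ hχ')
      ⟨by linarith [hu'.1], by linarith [hu'.2]⟩
    refine h3.trans (le_of_eq ?_)
    field_simp
    ring
  have e : gd (sx s χ) u v - gd (sx s χ') u' v' = (gd (sx s χ) u v - gd (sx s χ) u' v') +
    (gd (sx s χ) u' v' - gd (sx s χ') u' v') := by ring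
  rw [e, mul_add]
  exact (norm_add_le _ _).trans (add_le_add h1 h2)

/-- bound of the potential along both variables -/
lemma slip (h : Hs ρ c C s) {u v u' v' χ : ℂ} (hu : u ∈ Rc (2 * ρ) (2 * ρ))
    (hv : v ∈ Rc (2 * ρ) (2 * ρ)) (hu' : u' ∈ Rc (2 * ρ) (2 * ρ))
    (hv' : v' ∈ Rc (2 * ρ) (2 * ρ)) (hχ : χ ∈ Rc (3 * ρ) (3 * ρ)) :
    ‖s u v χ - s u' v' χ‖ ≤ 4 * C / ρ * (‖u - u'‖ + ‖v - v'‖) := by
  have h1 : ‖s u v χ - s u' v χ‖ ≤ 4 * C / ρ * ‖u - u'‖ :=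
    l0 h.hρ le_rfl (sl1 h (up h hv) hχ) (fun y hy => h.sbd y hy v (up h hv) χ hχ) hu hu'
  have h2 : ‖s u' v χ - s u' v' χ‖ ≤ 4 * C / ρ * ‖v - v'‖ :=
    l0 h.hρ le_rfl (sl2 h (up h hu') hχ) (fun y hy => h.sbd u' (up h hu') y hy χ hχ) hv hv'
  have e : s u v χ - s u' v' χ = (s u v χ - s u' v χ) + (s u' v χ - s u' v' χ) := by ring
  rw [e, mul_add]
  exact (norm_add_le _ _).trans (add_le_add h1 h2)

/-- the third partial derivative is Lipschitz in the first two variables -/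
lemma h3lip (h : Hs ρ c C s) {u v u' v' χ : ℂ} (hu : u ∈ Rc (2 * ρ) (2 * ρ))
    (hv : v ∈ Rc (2 * ρ) (2 * ρ)) (hu' : u' ∈ Rc (2 * ρ) (2 * ρ))
    (hv' : v' ∈ Rc (2 * ρ) (2 * ρ)) (hχ : χ ∈ Rc (2 * ρ) (2 * ρ)) :
    ‖deriv (fun w => s u v w) χ - deriv (fun w => s u' v' w) χ‖ ≤
      16 * C / ρ ^ 2 * (‖u - u'‖ + ‖v - v'‖) := by
  have hd := sl3 h (up h hu) (up h hv)
  have hd' := sl3 h (up h hu') (up h hv')
  have e : deriv (fun w => s u v w) χ - deriv (fun w => s u' v' w) χ =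
      deriv (fun w => s u v w - s u' v' w) χ := by
    rw [deriv_fun_sub (hd.differentiableAt ((Rc_open _ _).mem_nhds (up h hχ)))
      (hd'.differentiableAt ((Rc_open _ _).mem_nhds (up h hχ)))]
  rw [e]
  have hρ := h.hρ
  have h3 := d1 (u := χ) h.hρ le_rfl (hd.sub hd') (C := 4 * C / ρ * (‖u - u'‖ + ‖v - v'‖))
    (fun x hx => slip h hu hv hu' hv' hx) ⟨by linarith [hχ.1], by linarith [hχ.2]⟩
  refine h3.trans (le_of_eq ?_)
  field_simp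
  ring

/-- bound of the second derivative -/
lemma d2 (hρ : 0 < ρ) {f : ℂ → ℂ} (hf : DifferentiableOn ℂ f (Rc (3 * ρ) (3 * ρ)))
    {C : ℝ} (hC0 : 0 ≤ C) (hC : ∀ x ∈ Rc (3 * ρ) (3 * ρ), ‖f x‖ ≤ C) {u : ℂ}
    (hu : u ∈ Rc (2 * ρ) (2 * ρ)) : ‖deriv (deriv f) u‖ ≤ 16 * C / ρ ^ 2 := by
  apply norm_deriv_le_of_lip' (by positivity)
  filter_upwards [(Rc_open _ _).mem_nhds hu] with x hx
  exact l1 hρ le_rfl hf hC hx hu

/-- first order expansion along Lipschitz curves -/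
lemma expand3 (h : Hs ρ c C s) {α β : ℂ → ℂ} {w : ℂ}
    (hα : α w ∈ Rc (3 * ρ) (3 * ρ)) (hβ : β w ∈ Rc (3 * ρ) (3 * ρ)) (hw : w ∈ Rc (3 * ρ) (3 * ρ))
    (hα' : (fun w' => α w' - α w) =O[𝓝 w] (fun w' => w' - w))
    (hβ' : (fun w' => β w' - β w) =O[𝓝 w] (fun w' => w' - w)) :
    (fun w' => s (α w') (β w') w' - s (α w) (β w) w -
      (deriv (fun x => s x (β w) w) (α w) * (α w' - α w) +
        deriv (fun x => s (α w) x w) (β w) * (β w' - β w) +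
        deriv (fun x => s (α w) (β w) x) w * (w' - w))) =o[𝓝 w] (fun w' => w' - w) := by
  set S : ℂ × ℂ × ℂ → ℂ := fun p => s p.1 p.2.1 p.2.2 with hS
  have hd : DifferentiableAt ℂ S (α w, β w, w) :=
    h.san.differentiableAt
      (((Rc_open _ _).prod ((Rc_open _ _).prod (Rc_open _ _))).mem_nhds ⟨hα, hβ, hw⟩)
  set L := fderiv ℂ S (α w, β w, w) with hL
  have hF : HasFDerivAt S L (α w, β w, w) := hd.hasFDerivAt
  have h1 : deriv (fun x => s x (β w) w) (α w) = L (1, 0, 0) := by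
    have h2 : HasDerivAt (fun x : ℂ => (x, β w, w)) ((1 : ℂ), (0 : ℂ), (0 : ℂ)) (α w) :=
      (hasDerivAt_id _).prodMk ((hasDerivAt_const _ _).prodMk (hasDerivAt_const _ _))
    exact (hF.comp_hasDerivAt (α w) h2).deriv
  have h2 : deriv (fun x => s (α w) x w) (β w) = L (0, 1, 0) := by
    have h2 : HasDerivAt (fun x : ℂ => (α w, x, w)) ((0 : ℂ), (1 : ℂ), (0 : ℂ)) (β w) :=
      (hasDerivAt_const _ _).prodMk ((hasDerivAt_id _).prodMk (hasDerivAt_const _ _))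
    exact (hF.comp_hasDerivAt (β w) h2).deriv
  have h3 : deriv (fun x => s (α w) (β w) x) w = L (0, 0, 1) := by
    have h2 : HasDerivAt (fun x : ℂ => (α w, β w, x)) ((0 : ℂ), (0 : ℂ), (1 : ℂ)) w :=
      (hasDerivAt_const _ _).prodMk ((hasDerivAt_const _ _).prodMk (hasDerivAt_id _))
    exact (hF.comp_hasDerivAt w h2).deriv
  rw [h1, h2, h3]
  have hid : (fun w' : ℂ => w' - w) =O[𝓝 w] (fun w' => w' - w) := isBigO_refl _ _
  have hp : (fun w' => (α w', β w', w') - (α w, β w, w)) =O[𝓝 w] (fun w' => w' - w) :=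
    hα'.prod_left (hβ'.prod_left hid)
  have ht : Tendsto (fun w' => (α w', β w', w')) (𝓝 w) (𝓝 (α w, β w, w)) := by
    rw [← tendsto_sub_nhds_zero_iff]
    refine hp.trans_tendsto ?_
    have : Tendsto (fun w' : ℂ => w' - w) (𝓝 w) (𝓝 (w - w)) :=
      (continuous_id.sub continuous_const).tendsto w
    rwa [sub_self] at this
  have h3 := (hF.isLittleO.comp_tendsto ht).trans_isBigO hp
  refine h3.congr_left fun w' => ?_
  simp only [Function.comp_apply, hS]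
  have e : (α w', β w', w') - (α w, β w, w) = (α w' - α w) • ((1 : ℂ), (0 : ℂ), (0 : ℂ)) +
      (β w' - β w) • ((0 : ℂ), (1 : ℂ), (0 : ℂ)) + (w' - w) • ((0 : ℂ), (0 : ℂ), (1 : ℂ)) := by
    ext <;> simp
  rw [e, map_add, map_add, map_smul, map_smul, map_smul, smul_eq_mul, smul_eq_mul, smul_eq_mul]
  ring

/-- the first derivative vanishes at `0` -/
lemma g_zero (h : Hs ρ c C s) {v χ : ℂ} (hv : v ∈ Rc (3 * ρ) (3 * ρ))
    (hχ : χ ∈ Rc (3 * ρ) (3 * ρ)) : gd (sx s χ) 0 v = 0 := by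
  have hρ := h.hρ
  have h0 : (0 : ℂ) ∈ Rc (3 * ρ) (3 * ρ) := by
    refine ⟨?_, ?_⟩ <;> simp <;> linarith
  have hd : DifferentiableAt ℂ (fun x => s x v χ) 0 :=
    (sl1 h hv hχ).differentiableAt ((Rc_open _ _).mem_nhds h0)
  unfold gd sx
  have h1 : HasDerivAt (fun x => s x v χ) (deriv (fun x => s x v χ) 0) 0 := hd.hasDerivAt
  have h2 : HasDerivAt (fun x : ℂ => s (-x) v χ) (-(deriv (fun x => s x v χ) 0)) 0 := by
    have h3 : HasDerivAt (fun x => s x v χ) (deriv (fun x => s x v χ) 0) (-(0 : ℂ)) := by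
      rw [neg_zero]; exact h1
    have h4 := h3.comp (0 : ℂ) (hasDerivAt_neg (0 : ℂ))
    rw [mul_neg_one] at h4
    exact h4
  have h5 : (fun x : ℂ => s (-x) v χ) =ᶠ[𝓝 0] (fun x => s x v χ) := by
    filter_upwards [(Rc_open _ _).mem_nhds h0] with x hx
    exact h.ev x hx v hv χ hχ
  have h6 := h2.congr_of_eventuallyEq h5.symm
  have h7 := h1.unique h6
  have h8 : (2 : ℂ) * deriv (fun x => s x v χ) 0 = 0 := by
    linear_combination h7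
  exact (mul_eq_zero.1 h8).resolve_left two_ne_zero

/-- concavity in integrated form -/
lemma g_conc (h : Hs ρ c C s) {u v χ : ℂ} (hu : u ∈ Rc (3 * ρ) (3 * ρ))
    (hv : v ∈ Rc (3 * ρ) (3 * ρ)) (hχ : χ ∈ Rc (3 * ρ) (3 * ρ)) :
    ((starRingEnd ℂ) u * gd (sx s χ) u v).re ≤ -(c * ‖u‖ ^ 2) := by
  have hρ := h.hρ
  have h0 : (0 : ℂ) ∈ Rc (3 * ρ) (3 * ρ) := by
    refine ⟨?_, ?_⟩ <;> simp <;> linarith
  have hseg : ∀ t ∈ Set.Icc (0 : ℝ) 1, (t : ℂ) * u ∈ Rc (3 * ρ) (3 * ρ) := by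
    intro t ht
    have hcv := Rc_convex (3 * ρ) (3 * ρ)
    have := hcv h0 hu (show (0 : ℝ) ≤ 1 - t by linarith [ht.2]) ht.1 (by ring)
    simpa using this
  have hdd : DifferentiableOn ℂ (deriv fun x => s x v χ) (Rc (3 * ρ) (3 * ρ)) :=
    (sl1 h hv hχ).deriv (Rc_open _ _)
  set g : ℝ → ℝ := fun t => ((starRingEnd ℂ) u * deriv (fun x => s x v χ) ((t : ℂ) * u)).re
    with hg
  have hder : ∀ t ∈ Set.Icc (0 : ℝ) 1, HasDerivAt g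
      (‖u‖ ^ 2 * (deriv (deriv fun x => s x v χ) ((t : ℂ) * u)).re) t := by
    intro t ht
    have h1 : HasDerivAt (deriv fun x => s x v χ) (deriv (deriv fun x => s x v χ) ((t : ℂ) * u))
        ((t : ℂ) * u) :=
      (hdd.differentiableAt ((Rc_open _ _).mem_nhds (hseg t ht))).hasDerivAt
    have h2 : HasDerivAt (fun t : ℝ => (t : ℂ) * u) u t := by
      have := (Complex.ofRealCLM.hasDerivAt (x := t)).mul_const u
      simpa using this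
    have h3 := h1.scomp t h2
    have h4 := h3.const_mul ((starRingEnd ℂ) u)
    have h5 := Complex.reCLM.hasFDerivAt.comp_hasDerivAt t h4
    have h6 : Complex.reCLM ((starRingEnd ℂ) u *
        (u • deriv (deriv fun x => s x v χ) ((t : ℂ) * u))) =
        ‖u‖ ^ 2 * (deriv (deriv fun x => s x v χ) ((t : ℂ) * u)).re := by
      rw [Complex.reCLM_apply, smul_eq_mul, ← mul_assoc, mul_comm ((starRingEnd ℂ) u) u,
        Complex.mul_conj, Complex.re_ofReal_mul, Complex.normSq_eq_norm_sq]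
    rw [h6] at h5
    exact h5
  have hmono : AntitoneOn (fun t => g t + c * ‖u‖ ^ 2 * t) (Set.Icc (0 : ℝ) 1) := by
    apply antitoneOn_of_deriv_nonpos (convex_Icc 0 1)
    · intro t ht
      exact ((hder t ht).continuousAt.continuousWithinAt).add
        ((continuous_const.mul continuous_id).continuousWithinAt)
    · intro t ht
      rw [interior_Icc] at ht
      exact ((hder t ⟨ht.1.le, ht.2.le⟩).add
        ((hasDerivAt_id t).const_mul (c * ‖u‖ ^ 2))).differentiableAt.differentiableWithinAt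
    · intro t ht
      rw [interior_Icc] at ht
      have ht' : t ∈ Set.Icc (0 : ℝ) 1 := ⟨ht.1.le, ht.2.le⟩
      have h1 := (hder t ht').add ((hasDerivAt_id t).const_mul (c * ‖u‖ ^ 2))
      have h2 : deriv (fun t => g t + c * ‖u‖ ^ 2 * t) t =
        ‖u‖ ^ 2 * (deriv (deriv fun x => s x v χ) ((t : ℂ) * u)).re + c * ‖u‖ ^ 2 * 1 := h1.deriv
      rw [h2]
      have h3 := (h.conc _ (hseg t ht') v hv χ hχ).1
      have h4 : ‖u‖ ^ 2 * (deriv (deriv fun x => s x v χ) ((t : ℂ) * u)).re ≤ ‖u‖ ^ 2 * (-c) :=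
        mul_le_mul_of_nonneg_left h3 (by positivity)
      linarith
  have h1 := hmono (Set.left_mem_Icc.2 zero_le_one) (Set.right_mem_Icc.2 zero_le_one) zero_le_one
  have h2 : g 0 = 0 := by
    rw [hg]
    have := g_zero h hv hχ
    unfold gd sx at this
    simp [this]
  have h3 : g 1 = ((starRingEnd ℂ) u * gd (sx s χ) u v).re := by
    rw [hg]
    unfold gd sx
    simp
  simp only at h1
  rw [h2, h3] at h1
  linarith

end Pool.Agent.Y571.CRVX
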