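import Pool.Agent.Y571.CRVX.Basic

/-!
# The critical configuration of a ring as a function of the parameter
-/

set_option autoImplicit false

namespace Pool.Agent.Y571.CRVX

open Finset Filter Topology Metric Asymptotics
open Pool.Agent.W711.HT hiding gd
open Pool.Agent.Y419.CHV
open scoped Real

section cyc

lemma pn {n j : ℕ} (hj : j < n) : ((j + 1) % n + n - 1) % n = j := by
  rcases Nat.lt_or_ge (j + 1) n with h | h
  · rw [Nat.mod_eq_of_lt h, show j + 1 + n - 1 = j + n by omega, Nat.add_mod_right,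
      Nat.mod_eq_of_lt hj]
  · have h1 : j + 1 = n := by omega
    rw [h1, Nat.mod_self, show 0 + n - 1 = j by omega]
    exact Nat.mod_eq_of_lt hj

lemma np {n k : ℕ} (hk : k < n) : ((k + n - 1) % n + 1) % n = k := by
  rcases Nat.eq_zero_or_pos k with rfl | h
  · rw [show 0 + n - 1 = n - 1 by omega, Nat.mod_eq_of_lt (show n - 1 < n by omega),
      show n - 1 + 1 = n by omega, Nat.mod_self]
  · rw [show k + n - 1 = (k - 1) + n by omega, Nat.add_mod_right,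
      Nat.mod_eq_of_lt (show k - 1 < n by omega), show k - 1 + 1 = k by omega,
      Nat.mod_eq_of_lt hk]

lemma sum_shift {n : ℕ} (hn : 0 < n) (f : ℕ → ℂ) :
    ∑ j ∈ range n, f ((j + 1) % n) = ∑ j ∈ range n, f j := by
  obtain ⟨m, rfl⟩ : ∃ m, n = m + 1 := ⟨n - 1, by omega⟩
  rw [Finset.sum_range_succ, Nat.mod_self]
  have h1 : ∀ j ∈ range m, f ((j + 1) % (m + 1)) = f (j + 1) := by
    intro j hj
    rw [Nat.mod_eq_of_lt (by have := Finset.mem_range.1 hj; omega)]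
  rw [Finset.sum_congr rfl h1, Finset.sum_range_succ']

lemma ext0_norm {n : ℕ} (z : Fin n → ℂ) (i : ℕ) : ‖ext0 z i‖ ≤ ‖z‖ := by
  unfold ext0
  split_ifs with h
  · exact norm_le_pi_norm z ⟨i, h⟩
  · rw [norm_zero]; exact norm_nonneg z

lemma ext0_sub {n : ℕ} (z z' : Fin n → ℂ) (i : ℕ) : ‖ext0 z i - ext0 z' i‖ ≤ ‖z - z'‖ := by
  unfold ext0
  split_ifs with h
  · exact norm_le_pi_norm (z - z') ⟨i, h⟩
  · rw [sub_self, norm_zero]; exact norm_nonneg _

end cyc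

variable {ρ c C : ℝ} {s : ℂ → ℂ → ℂ → ℂ}

/-- the map whose fixed points are the critical configurations -/
noncomputable def Pm (s : ℂ → ℂ → ℂ → ℂ) (a : ℕ → ℤ) (n : ℕ) (χ : ℂ) (z : Fin n → ℂ) :
    Fin n → ℂ :=
  fun j => -(2 * π / (a j : ℂ)) * (1 - Complex.I *
    (gd (sx s χ) (z j) (ext0 z (((j : ℕ) + n - 1) % n)) +
      gd (sx s χ) (z j) (ext0 z (((j : ℕ) + 1) % n))))

/-- the critical equations -/
def Crit (s : ℂ → ℂ → ℂ → ℂ) (a : ℕ → ℤ) (n : ℕ) (χ : ℂ) (y : ℕ → ℂ) : Prop := ∀ j < n,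
  Complex.I * a ((j + 1) % n) * y ((j + 1) % n) / (2 * π) + Complex.I +
    deriv (fun w => s (y j) w χ) (y ((j + 1) % n)) +
    deriv (fun w => s w (y (((j + 1) % n + 1) % n)) χ) (y ((j + 1) % n)) = 0

/-- the critical value -/
noncomputable def GG (s : ℂ → ℂ → ℂ → ℂ) (a : ℕ → ℤ) (n : ℕ) (χ : ℂ) (y : ℕ → ℂ) : ℂ :=
  ∑ j ∈ range n, (Complex.I * a j * y j ^ 2 / (4 * π) +
    Complex.I * y j + s (y j) (y ((j + 1) % n)) χ)

lemma gsymm (h : Hs ρ c C s) {u v χ : ℂ} (hu : u ∈ Rc (3 * ρ) (3 * ρ))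
    (hv : v ∈ Rc (3 * ρ) (3 * ρ)) (hχ : χ ∈ Rc (3 * ρ) (3 * ρ)) :
    deriv (fun x => s u x χ) v = gd (sx s χ) v u := by
  unfold gd sx
  apply Filter.EventuallyEq.deriv_eq
  filter_upwards [(Rc_open _ _).mem_nhds hv] with x hx
  exact h.sym u hu x hx χ hχ

lemma small_mem (hρ : 0 < ρ) {u : ℂ} (hu : ‖u‖ ≤ 3 * ρ / 10) : u ∈ Rc (2 * ρ) (2 * ρ) := by
  have h4 := (Complex.abs_re_le_norm u).trans hu
  have h5 := (Complex.abs_im_le_norm u).trans hu
  exact ⟨by linarith, by linarith⟩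

section est

variable {a : ℕ → ℤ} {n : ℕ}

lemma Pm_norm (h : Hs ρ c C s) {χ : ℂ} (hχ : χ ∈ Rc (2 * ρ) (2 * ρ)) (z : Fin n → ℂ)
    (hz : ‖z‖ ≤ 3 * ρ / 10) (j : Fin n) :
    ‖Pm s a n χ z j‖ ≤ 2 * π / |(a j : ℝ)| * (1 + 2 * (4 * C / ρ)) := by
  have hzj : z j ∈ Rc (2 * ρ) (2 * ρ) := small_mem h.hρ ((norm_le_pi_norm z j).trans hz)
  have he : ∀ i, ext0 z i ∈ Rc (2 * ρ) (2 * ρ) := fun i =>
    small_mem h.hρ ((ext0_norm z i).trans hz)
  unfold Pm
  rw [norm_mul]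
  have h1 := gbd h hzj (he (((j : ℕ) + n - 1) % n)) hχ
  have h2 := gbd h hzj (he (((j : ℕ) + 1) % n)) hχ
  have h3 : ‖1 - Complex.I * (gd (sx s χ) (z j) (ext0 z (((j : ℕ) + n - 1) % n)) +
      gd (sx s χ) (z j) (ext0 z (((j : ℕ) + 1) % n)))‖ ≤ 1 + 2 * (4 * C / ρ) := by
    refine (norm_sub_le _ _).trans ?_
    rw [norm_one, norm_mul, Complex.norm_I, one_mul]
    have := norm_add_le (gd (sx s χ) (z j) (ext0 z (((j : ℕ) + n - 1) % n)))
      (gd (sx s χ) (z j) (ext0 z (((j : ℕ) + 1) % n)))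
    linarith
  have h4 : ‖-(2 * (π : ℂ) / (a j : ℂ))‖ = 2 * π / |(a j : ℝ)| := by
    rw [norm_neg, norm_div, norm_mul, Complex.norm_real, Real.norm_of_nonneg Real.pi_pos.le,
      Complex.norm_ofNat, Complex.norm_intCast]
  rw [h4]
  exact mul_le_mul_of_nonneg_left h3 (by positivity)

lemma Pm_lip (h : Hs ρ c C s) {M : ℝ} (hM : 0 < M) (ha : ∀ j < n, M ≤ |(a j : ℝ)|) {χ χ' : ℂ}
    (hχ : χ ∈ Rc (2 * ρ) (2 * ρ)) (hχ' : χ' ∈ Rc (2 * ρ) (2 * ρ)) (z z' : Fin n → ℂ)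
    (hz : ‖z‖ ≤ 3 * ρ / 10) (hz' : ‖z'‖ ≤ 3 * ρ / 10) :
    ‖Pm s a n χ z - Pm s a n χ' z'‖ ≤
      4 * π * (16 * C / ρ ^ 2) / M * (2 * ‖z - z'‖ + ‖χ - χ'‖) := by
  have hρ := h.hρ
  have hC := h.hC
  set K2 := 16 * C / ρ ^ 2 with hK2
  have hK2p : 0 < K2 := by positivity
  have hnn : 0 ≤ 2 * ‖z - z'‖ + ‖χ - χ'‖ := by positivity
  rw [pi_norm_le_iff_of_nonneg (by positivity)]
  intro j
  rw [Pi.sub_apply]
  unfold Pm
  rw [← mul_sub, norm_mul]
  have hzj : z j ∈ Rc (2 * ρ) (2 * ρ) := small_mem h.hρ ((norm_le_pi_norm z j).trans hz)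
  have he : ∀ i, ext0 z i ∈ Rc (2 * ρ) (2 * ρ) := fun i =>
    small_mem h.hρ ((ext0_norm z i).trans hz)
  have hzj' : z' j ∈ Rc (2 * ρ) (2 * ρ) := small_mem h.hρ ((norm_le_pi_norm z' j).trans hz')
  have he' : ∀ i, ext0 z' i ∈ Rc (2 * ρ) (2 * ρ) := fun i =>
    small_mem h.hρ ((ext0_norm z' i).trans hz')
  set A := gd (sx s χ) (z j) (ext0 z (((j : ℕ) + n - 1) % n)) with hA
  set B := gd (sx s χ) (z j) (ext0 z (((j : ℕ) + 1) % n)) with hB
  set A' := gd (sx s χ') (z' j) (ext0 z' (((j : ℕ) + n - 1) % n)) with hA'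
  set B' := gd (sx s χ') (z' j) (ext0 z' (((j : ℕ) + 1) % n)) with hB'
  have e : (1 - Complex.I * (A + B)) - (1 - Complex.I * (A' + B')) =
      -(Complex.I * ((A - A') + (B - B'))) := by ring
  rw [e, norm_neg (Complex.I * _), norm_mul Complex.I, Complex.norm_I, one_mul]
  have hd : ‖z j - z' j‖ ≤ ‖z - z'‖ := norm_le_pi_norm (z - z') j
  have h1 : ‖A - A'‖ ≤ K2 * (2 * ‖z - z'‖ + ‖χ - χ'‖) := by
    refine (glip h hzj (he _) hχ hzj' (he' _) hχ').trans ?_
    apply mul_le_mul_of_nonneg_left _ hK2p.le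
    have := ext0_sub z z' (((j : ℕ) + n - 1) % n)
    linarith
  have h2 : ‖B - B'‖ ≤ K2 * (2 * ‖z - z'‖ + ‖χ - χ'‖) := by
    refine (glip h hzj (he _) hχ hzj' (he' _) hχ').trans ?_
    apply mul_le_mul_of_nonneg_left _ hK2p.le
    have := ext0_sub z z' (((j : ℕ) + 1) % n)
    linarith
  have hna : ‖-(2 * (π : ℂ) / (a j : ℂ))‖ ≤ 2 * π / M := by
    rw [norm_neg, norm_div, norm_mul, Complex.norm_real, Real.norm_of_nonneg Real.pi_pos.le,
      Complex.norm_ofNat, Complex.norm_intCast]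
    exact div_le_div_of_nonneg_left (by positivity) hM (ha j j.2)
  have h3 : ‖(A - A') + (B - B')‖ ≤ 2 * (K2 * (2 * ‖z - z'‖ + ‖χ - χ'‖)) :=
    (norm_add_le _ _).trans (by linarith)
  calc _ ≤ 2 * π / M * (2 * (K2 * (2 * ‖z - z'‖ + ‖χ - χ'‖))) :=
        mul_le_mul hna h3 (norm_nonneg _) (by positivity)
    _ = 4 * π * K2 / M * (2 * ‖z - z'‖ + ‖χ - χ'‖) := by ring

/-- critical configurations are fixed points -/
lemma crit_iff (h : Hs ρ c C s) (ha0 : ∀ j < n, (a j : ℂ) ≠ 0) {χ : ℂ}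
    (hχ : χ ∈ Rc (2 * ρ) (2 * ρ)) (z : Fin n → ℂ) (hz : ‖z‖ ≤ 3 * ρ / 10) :
    Crit s a n χ (ext0 z) ↔ Pm s a n χ z = z := by
  have he : ∀ i, ext0 z i ∈ Rc (2 * ρ) (2 * ρ) := fun i =>
    small_mem h.hρ ((ext0_norm z i).trans hz)
  have key : ∀ k (hk : k < n),
      (Complex.I * a k * ext0 z k / (2 * π) + Complex.I +
        deriv (fun w => s (ext0 z ((k + n - 1) % n)) w χ) (ext0 z k) +
        deriv (fun w => s w (ext0 z ((k + 1) % n)) χ) (ext0 z k) = 0 ↔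
      Pm s a n χ z ⟨k, hk⟩ = z ⟨k, hk⟩) := by
    intro k hk
    rw [gsymm h (up h (he _)) (up h (he _)) (up h hχ)]
    change _ + _ + gd (sx s χ) (ext0 z k) _ + gd (sx s χ) (ext0 z k) _ = 0 ↔
      -(2 * (π : ℂ) / (a k : ℂ)) * (1 - Complex.I *
        (gd (sx s χ) (z ⟨k, hk⟩) (ext0 z ((k + n - 1) % n)) +
          gd (sx s χ) (z ⟨k, hk⟩) (ext0 z ((k + 1) % n)))) = z ⟨k, hk⟩
    rw [ext0_of z hk]
    have h0 := ha0 k hk
    have hpi : (π : ℂ) ≠ 0 := by exact_mod_cast Real.pi_ne_zero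
    set A := gd (sx s χ) (z ⟨k, hk⟩) (ext0 z ((k + n - 1) % n))
    set B := gd (sx s χ) (z ⟨k, hk⟩) (ext0 z ((k + 1) % n))
    set x := z ⟨k, hk⟩
    constructor
    · intro h
      have h1 : A + B = -(Complex.I * (a k : ℂ) * x / (2 * π) + Complex.I) := by
        linear_combination h
      rw [h1]
      field_simp
      linear_combination (-(2 * (π : ℂ)) - x * (a k : ℂ)) * Complex.I_sq
    · intro h
      rw [← h]
      field_simp
      linear_combination (A + B) * Complex.I_sq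
  constructor
  · intro hcr
    funext k
    refine (key k k.2).1 ?_
    have hn0 : 0 < n := lt_of_le_of_lt (Nat.zero_le _) k.2
    have hk := hcr (((k : ℕ) + n - 1) % n) (Nat.mod_lt _ hn0)
    rw [np k.2] at hk
    exact hk
  · intro hP j hj
    have hk : (j + 1) % n < n := Nat.mod_lt _ (by omega)
    have := (key _ hk).2 (congrFun hP _)
    rw [pn hj] at this
    exact this

/-- positivity of the imaginary parts -/
lemma im_pos (h : Hs ρ c C s) (ha0 : ∀ j < n, (a j : ℝ) ≠ 0) {χ : ℂ}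
    (hχ : χ ∈ Rc (2 * ρ) (2 * ρ)) (z : Fin n → ℂ) (hz : ‖z‖ ≤ 3 * ρ / 10)
    (hP : Pm s a n χ z = z) (j : Fin n) : 0 < (z j).im := by
  have he : ∀ i, ext0 z i ∈ Rc (2 * ρ) (2 * ρ) := fun i =>
    small_mem h.hρ ((ext0_norm z i).trans hz)
  have hzj : z j ∈ Rc (2 * ρ) (2 * ρ) := small_mem h.hρ ((norm_le_pi_norm z j).trans hz)
  have h1 := congrFun hP j
  unfold Pm at h1
  have hc1 := g_conc h (up h hzj) (up h (he (((j : ℕ) + n - 1) % n))) (up h hχ)
  have hc2 := g_conc h (up h hzj) (up h (he (((j : ℕ) + 1) % n))) (up h hχ)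
  have hz1 := g_zero h (up h (he (((j : ℕ) + n - 1) % n))) (up h hχ)
  have hz2 := g_zero h (up h (he (((j : ℕ) + 1) % n))) (up h hχ)
  have ha1 := ha0 j j.2
  have hne : z j ≠ 0 := by
    intro h0
    rw [h0, hz1, hz2, add_zero, mul_zero, sub_zero, mul_one, neg_eq_zero, div_eq_zero_iff] at h1
    rcases h1 with h1 | h1
    · have : (π : ℂ) ≠ 0 := by exact_mod_cast Real.pi_ne_zero
      exact mul_ne_zero two_ne_zero this h1
    · exact ha1 (by exact_mod_cast h1)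
  set W := gd (sx s χ) (z j) (ext0 z (((j : ℕ) + n - 1) % n)) +
      gd (sx s χ) (z j) (ext0 z (((j : ℕ) + 1) % n)) with hW
  have h2 : ((starRingEnd ℂ) (z j) * W).re ≤ -(2 * (c * ‖z j‖ ^ 2)) := by
    rw [hW, mul_add, Complex.add_re]
    linarith
  set α : ℝ := 2 * π / (a j : ℝ) with hα
  have h3 : z j = -(α : ℂ) * (1 - Complex.I * W) := by
    rw [← h1, hα]
    push_cast
    rfl
  have hre : (z j).re = -α * (1 + W.im) := by
    rw [h3]
    simp [Complex.mul_re, Complex.mul_im]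
  have him : (z j).im = α * W.re := by
    rw [h3]
    simp [Complex.mul_re, Complex.mul_im]
  have h4 : ((starRingEnd ℂ) (z j) * W).re = -(z j).im := by
    rw [Complex.mul_re, Complex.conj_re, Complex.conj_im, hre, him]
    ring
  rw [h4] at h2
  have h5 : 0 < c * ‖z j‖ ^ 2 := mul_pos h.hc (pow_pos (norm_pos_iff.2 hne) 2)
  linarith

end est

/-- the main statement, for the local hypotheses -/
theorem ring (h : Hs ρ c C s) (hρ1 : 3 * ρ ≤ 1) :
    ∃ R r c₂ B₂ C' M : ℝ, 0 < R ∧ R ≤ 3 * ρ ∧ 0 < r ∧ r ≤ 1 / 10 ∧ 4 * r ≤ 3 * ρ ∧ 0 < c₂ ∧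
      0 < B₂ ∧ 0 < C' ∧ 0 < M ∧ ∀ (n : ℕ) (a : ℕ → ℤ), 2 ≤ n → (∀ j < n, M ≤ |(a j : ℝ)|) →
    ∃ (G : ℂ → ℂ) (z : ℂ → ℕ → ℂ), DifferentiableOn ℂ G (Rc R R) ∧
      (∀ χ ∈ Rc R R, G (-χ) = G χ ∧ (deriv (deriv G) χ).re ≤ -(c₂ * n) ∧
        ‖deriv (deriv G) χ‖ ≤ B₂ * n) ∧
      (∀ χ ∈ Rc R R, (∀ j < n, ‖z χ j‖ ≤ r ∧ 0 < (z χ j).im ∧
          Complex.I * a ((j + 1) % n) * z χ ((j + 1) % n) / (2 * π) + Complex.I +
            deriv (fun w => s (z χ j) w χ) (z χ ((j + 1) % n)) +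
            deriv (fun w => s w (z χ (((j + 1) % n + 1) % n)) χ) (z χ ((j + 1) % n)) = 0) ∧
        (∀ y : ℕ → ℂ, (∀ j < n, ‖y j‖ ≤ r ∧
          Complex.I * a ((j + 1) % n) * y ((j + 1) % n) / (2 * π) + Complex.I +
            deriv (fun w => s (y j) w χ) (y ((j + 1) % n)) +
            deriv (fun w => s w (y (((j + 1) % n + 1) % n)) χ) (y ((j + 1) % n)) = 0) →
          ∀ j < n, y j = z χ j) ∧
        deriv G χ = ∑ j ∈ range n, deriv (fun w => s (z χ j) (z χ ((j + 1) % n)) w) χ ∧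
        G χ = ∑ j ∈ range n, (Complex.I * a j * z χ j ^ 2 / (4 * π) +
          Complex.I * z χ j + s (z χ j) (z χ ((j + 1) % n)) χ)) ∧
      ∀ m : ℝ, 0 < m → (∀ j < n, m ≤ |(a j : ℝ)|) → ∀ χ ∈ Rc R R,
        ‖G χ - n * s 0 0 χ‖ ≤ n * (C' / m) ∧ ∀ j < n, ‖z χ j‖ ≤ C' / m := by
  have hρ := h.hρ
  have hC := h.hC
  have hc := h.hc
  have hpi := Real.pi_pos
  set K1 := 4 * C / ρ with hK1
  set K2 := 16 * C / ρ ^ 2 with hK2
  have hK1p : 0 < K1 := by positivity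
  have hK2p : 0 < K2 := by positivity
  set r := 3 * ρ / 10 with hr
  have hrp : 0 < r := by positivity
  set B := 2 * π * (1 + 2 * K1) with hB
  have hBp : 0 < B := by positivity
  set M := max (max (B / r) (16 * π * K2)) (32 * π * K2 ^ 2 / c) with hM
  have hMp : 0 < M := lt_of_lt_of_le (show 0 < 16 * π * K2 by positivity)
    ((le_max_right _ _).trans (le_max_left _ _))
  have hM1 : B / r ≤ M := (le_max_left _ _).trans (le_max_left _ _)
  have hM2 : 16 * π * K2 ≤ M := (le_max_right _ _).trans (le_max_left _ _)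
  have hM3 : 32 * π * K2 ^ 2 / c ≤ M := le_max_right _ _
  set q := 4 * π * K2 / M with hq
  have hqp : 0 < q := by positivity
  have hq4 : q ≤ 1 / 4 := by
    rw [hq, div_le_iff₀ hMp]
    linarith
  have hqc : 4 * K2 * q ≤ c / 2 := by
    rw [hq]
    rw [div_le_iff₀ hc] at hM3
    rw [← mul_div_assoc, div_le_iff₀ hMp]
    nlinarith
  set C' := B ^ 2 / (4 * π) + B + 2 * K1 * B with hC'
  have hC'p : 0 < C' := by positivity
  have hBC' : B ≤ C' := by
    have h1 : 0 ≤ B ^ 2 / (4 * π) := by positivity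
    have h2 : 0 ≤ 2 * K1 * B := by positivity
    linarith
  refine ⟨2 * ρ, r, c / 2, K2 + c / 2, C', M, by positivity, by linarith, hrp, by linarith,
    by linarith, by positivity, by positivity, hC'p, hMp, ?_⟩
  intro n a hn ha
  have hn0 : 0 < n := by omega
  have ha0R : ∀ j < n, (a j : ℝ) ≠ 0 := by
    intro j hj h0
    have h1 := ha j hj
    rw [h0, abs_zero] at h1
    linarith
  have ha0 : ∀ j < n, (a j : ℂ) ≠ 0 := by
    intro j hj h0
    exact ha0R j hj (by exact_mod_cast h0)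
  have hcontr : ∀ χ ∈ Rc (2 * ρ) (2 * ρ), ∀ χ' ∈ Rc (2 * ρ) (2 * ρ), ∀ z z' : Fin n → ℂ,
      ‖z‖ ≤ r → ‖z'‖ ≤ r →
      ‖Pm s a n χ z - Pm s a n χ' z'‖ ≤ 1 / 2 * ‖z - z'‖ + q * ‖χ - χ'‖ := by
    intro χ hχ χ' hχ' z z' hz hz'
    refine (Pm_lip h hMp ha hχ hχ' z z' hz hz').trans ?_
    rw [← hK2, ← hq, mul_add]
    have h1 : q * (2 * ‖z - z'‖) ≤ 1 / 4 * (2 * ‖z - z'‖) :=
      mul_le_mul_of_nonneg_right hq4 (by positivity)
    linarith
  have hmaps : ∀ χ ∈ Rc (2 * ρ) (2 * ρ), ∀ z : Fin n → ℂ, ‖z‖ ≤ r → ‖Pm s a n χ z‖ ≤ r := by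
    intro χ hχ z hz
    rw [pi_norm_le_iff_of_nonneg hrp.le]
    intro j
    refine (Pm_norm h hχ z hz j).trans ?_
    rw [← hK1]
    have h1 : 2 * π / |(a j : ℝ)| ≤ 2 * π / M :=
      div_le_div_of_nonneg_left (by positivity) hMp (ha j j.2)
    calc 2 * π / |(a j : ℝ)| * (1 + 2 * K1) ≤ 2 * π / M * (1 + 2 * K1) :=
          mul_le_mul_of_nonneg_right h1 (by positivity)
      _ = B / M := by rw [hB]; ring
      _ ≤ r := by
          rw [div_le_iff₀ hMp]
          rw [div_le_iff₀ hrp] at hM1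
          linarith
  -- fixed points
  have hfix : ∀ χ : ℂ, ∃ z : Fin n → ℂ, χ ∈ Rc (2 * ρ) (2 * ρ) → ‖z‖ ≤ r ∧ Pm s a n χ z = z := by
    intro χ
    by_cases hχ : χ ∈ Rc (2 * ρ) (2 * ρ)
    swap
    · exact ⟨0, fun h => absurd h hχ⟩
    have hcomp : IsComplete (closedBall (0 : Fin n → ℂ) r) := isClosed_closedBall.isComplete
    have hmt : Set.MapsTo (Pm s a n χ) (closedBall (0 : Fin n → ℂ) r) (closedBall 0 r) := by
      intro z hz
      rw [mem_closedBall_zero_iff] at *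
      exact hmaps χ hχ z hz
    have hcw : ContractingWith (1 / 2) (hmt.restrict (Pm s a n χ) _ _) := by
      refine ⟨by norm_num, ?_⟩
      refine LipschitzWith.of_dist_le_mul ?_
      intro z z'
      have hz : ‖(z : Fin n → ℂ)‖ ≤ r := mem_closedBall_zero_iff.1 z.2
      have hz' : ‖(z' : Fin n → ℂ)‖ ≤ r := mem_closedBall_zero_iff.1 z'.2
      have h1 := hcontr χ hχ χ hχ z z' hz hz'
      rw [sub_self χ, norm_zero, mul_zero, add_zero] at h1
      rw [Subtype.dist_eq, Subtype.dist_eq, dist_eq_norm, dist_eq_norm]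
      simpa using h1
    obtain ⟨z, hz, hfz, -⟩ := hcw.exists_fixedPoint' hcomp hmt
      (mem_closedBall_self hrp.le) (edist_ne_top _ _)
    exact ⟨z, fun _ => ⟨mem_closedBall_zero_iff.1 hz, hfz⟩⟩
  choose Z hZ using hfix
  have huniq : ∀ χ ∈ Rc (2 * ρ) (2 * ρ), ∀ z : Fin n → ℂ, ‖z‖ ≤ r → Pm s a n χ z = z →
      z = Z χ := by
    intro χ hχ z hz hfz
    obtain ⟨h1, h2⟩ := hZ χ hχ
    have h3 := hcontr χ hχ χ hχ z (Z χ) hz h1
    rw [hfz, h2, sub_self χ, norm_zero, mul_zero, add_zero] at h3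
    have h4 : ‖z - Z χ‖ ≤ 0 := by linarith
    exact sub_eq_zero.1 (norm_le_zero_iff.1 h4)
  have hlip : ∀ χ ∈ Rc (2 * ρ) (2 * ρ), ∀ χ' ∈ Rc (2 * ρ) (2 * ρ),
      ‖Z χ - Z χ'‖ ≤ 2 * q * ‖χ - χ'‖ := by
    intro χ hχ χ' hχ'
    obtain ⟨h1, h2⟩ := hZ χ hχ
    obtain ⟨h1', h2'⟩ := hZ χ' hχ'
    have h3 := hcontr χ hχ χ' hχ' (Z χ) (Z χ') h1 h1'
    rw [h2, h2'] at h3
    linarith
  set y : ℂ → ℕ → ℂ := fun χ => ext0 (Z χ) with hy
  have hyn : ∀ χ ∈ Rc (2 * ρ) (2 * ρ), ∀ j, ‖y χ j‖ ≤ r := fun χ hχ j =>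
    (ext0_norm (Z χ) j).trans (hZ χ hχ).1
  have hyR : ∀ χ ∈ Rc (2 * ρ) (2 * ρ), ∀ j, y χ j ∈ Rc (2 * ρ) (2 * ρ) := fun χ hχ j =>
    small_mem hρ (hyn χ hχ j)
  have hylip : ∀ χ ∈ Rc (2 * ρ) (2 * ρ), ∀ χ' ∈ Rc (2 * ρ) (2 * ρ), ∀ j,
      ‖y χ j - y χ' j‖ ≤ 2 * q * ‖χ - χ'‖ := fun χ hχ χ' hχ' j =>
    (ext0_sub (Z χ) (Z χ') j).trans (hlip χ hχ χ' hχ')
  have hcrit : ∀ χ ∈ Rc (2 * ρ) (2 * ρ), Crit s a n χ (y χ) := fun χ hχ =>
    (crit_iff h ha0 hχ (Z χ) (hZ χ hχ).1).2 (hZ χ hχ).2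
  set G : ℂ → ℂ := fun χ => GG s a n χ (y χ) with hG
  -- the derivative
  have hder : ∀ χ ∈ Rc (2 * ρ) (2 * ρ),
      HasDerivAt G (∑ j ∈ range n, deriv (fun w => s (y χ j) (y χ ((j + 1) % n)) w) χ) χ := by
    intro χ hχ
    have hYO : ∀ j, (fun w' => y w' j - y χ j) =O[𝓝 χ] (fun w' => w' - χ) := by
      intro j
      refine IsBigO.of_bound (2 * q) ?_
      filter_upwards [(Rc_open _ _).mem_nhds hχ] with w' hw'
      exact hylip w' hw' χ hχ j
    rw [hasDerivAt_iff_isLittleO]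
    have t1 : ∀ k, (fun w' => (Complex.I * a k * y w' k ^ 2 / (4 * π) + Complex.I * y w' k) -
        (Complex.I * a k * y χ k ^ 2 / (4 * π) + Complex.I * y χ k) -
        (Complex.I * a k * y χ k / (2 * π) + Complex.I) * (y w' k - y χ k)) =o[𝓝 χ]
        (fun w' => w' - χ) := by
      intro k
      have h1 : (fun w' => (y w' k - y χ k) * (y w' k - y χ k)) =o[𝓝 χ]
          (fun w' => w' - χ) := by
        have h2 : (fun w' : ℂ => (w' - χ) * (w' - χ)) =o[𝓝 χ] (fun w' => w' - χ) := by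
          have h3 : (fun w' : ℂ => w' - χ) =o[𝓝 χ] (fun _ => (1 : ℂ)) := by
            rw [isLittleO_one_iff]
            have : Tendsto (fun w' : ℂ => w' - χ) (𝓝 χ) (𝓝 (χ - χ)) :=
              (continuous_id.sub continuous_const).tendsto χ
            rwa [sub_self] at this
          have := h3.mul_isBigO (isBigO_refl (fun w' : ℂ => w' - χ) (𝓝 χ))
          simpa using this
        exact ((hYO k).mul (hYO k)).trans_isLittleO h2
      refine (h1.const_mul_left (Complex.I * a k / (4 * π))).congr_left fun w' => ?_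
      ring
    have t2 : ∀ j, (fun w' => s (y w' j) (y w' ((j + 1) % n)) w' -
        s (y χ j) (y χ ((j + 1) % n)) χ -
        (deriv (fun x => s x (y χ ((j + 1) % n)) χ) (y χ j) * (y w' j - y χ j) +
        deriv (fun x => s (y χ j) x χ) (y χ ((j + 1) % n)) *
          (y w' ((j + 1) % n) - y χ ((j + 1) % n)) +
        deriv (fun x => s (y χ j) (y χ ((j + 1) % n)) x) χ * (w' - χ))) =o[𝓝 χ]
        (fun w' => w' - χ) := fun j =>
      expand3 h (α := fun w' => y w' j) (β := fun w' => y w' ((j + 1) % n))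
        (up h (hyR χ hχ j)) (up h (hyR χ hχ _)) (up h hχ) (hYO j) (hYO _)
    have t3 := (IsLittleO.sum (s := range n) fun j _ => t1 j).add
      (IsLittleO.sum (s := range n) fun j _ => t2 j)
    refine t3.congr_left fun w' => ?_
    show _ = GG s a n w' (y w') - GG s a n χ (y χ) - (w' - χ) •
      (∑ j ∈ range n, deriv (fun w => s (y χ j) (y χ ((j + 1) % n)) w) χ)
    unfold GG
    simp only [Finset.sum_apply, Finset.sum_sub_distrib, Finset.sum_add_distrib]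
    have e1 : ∑ j ∈ range n, deriv (fun x => s x (y χ ((j + 1) % n)) χ) (y χ j) *
        (y w' j - y χ j) = ∑ j ∈ range n,
        deriv (fun x => s x (y χ (((j + 1) % n + 1) % n)) χ) (y χ ((j + 1) % n)) *
        (y w' ((j + 1) % n) - y χ ((j + 1) % n)) :=
      (sum_shift hn0 (fun j => deriv (fun x => s x (y χ ((j + 1) % n)) χ) (y χ j) *
        (y w' j - y χ j))).symm
    have e2 : ∑ k ∈ range n, (Complex.I * a k * y χ k / (2 * π) + Complex.I) *
        (y w' k - y χ k) = ∑ j ∈ range n,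
        (Complex.I * a ((j + 1) % n) * y χ ((j + 1) % n) / (2 * π) + Complex.I) *
        (y w' ((j + 1) % n) - y χ ((j + 1) % n)) :=
      (sum_shift hn0 (fun k => (Complex.I * a k * y χ k / (2 * π) + Complex.I) *
        (y w' k - y χ k))).symm
    have e3 : ∑ j ∈ range n,
        (Complex.I * a ((j + 1) % n) * y χ ((j + 1) % n) / (2 * π) + Complex.I) *
        (y w' ((j + 1) % n) - y χ ((j + 1) % n)) +
        (∑ j ∈ range n,
        deriv (fun x => s x (y χ (((j + 1) % n + 1) % n)) χ) (y χ ((j + 1) % n)) *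
        (y w' ((j + 1) % n) - y χ ((j + 1) % n)) +
        ∑ j ∈ range n, deriv (fun x => s (y χ j) x χ) (y χ ((j + 1) % n)) *
          (y w' ((j + 1) % n) - y χ ((j + 1) % n))) = 0 := by
      rw [← Finset.sum_add_distrib, ← Finset.sum_add_distrib]
      apply Finset.sum_eq_zero
      intro j hj
      have h2 := hcrit χ hχ j (Finset.mem_range.1 hj)
      linear_combination (y w' ((j + 1) % n) - y χ ((j + 1) % n)) * h2
    rw [e1, e2, smul_eq_mul, ← Finset.sum_mul]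
    linear_combination -e3
  have hdG : DifferentiableOn ℂ G (Rc (2 * ρ) (2 * ρ)) := fun χ hχ =>
    (hder χ hχ).differentiableAt.differentiableWithinAt
  have hdG2 : DifferentiableOn ℂ (deriv G) (Rc (2 * ρ) (2 * ρ)) := hdG.deriv (Rc_open _ _)
  have hd3 : ∀ χ ∈ Rc (2 * ρ) (2 * ρ), ∀ j, DifferentiableAt ℂ
      (deriv fun w => s (y χ j) (y χ ((j + 1) % n)) w) χ := fun χ hχ j =>
    ((sl3 h (up h (hyR χ hχ j)) (up h (hyR χ hχ _))).deriv (Rc_open _ _)).differentiableAt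
      ((Rc_open _ _).mem_nhds (up h hχ))
  -- the second derivative
  have hsec : ∀ χ ∈ Rc (2 * ρ) (2 * ρ), ‖deriv (deriv G) χ - ∑ j ∈ range n,
      deriv (deriv fun w => s (y χ j) (y χ ((j + 1) % n)) w) χ‖ ≤ c / 2 * n := by
    intro χ hχ
    set Ψ : ℂ → ℂ := fun χ' => deriv G χ' - ∑ j ∈ range n,
      (deriv fun w => s (y χ j) (y χ ((j + 1) % n)) w) χ' with hΨ
    have h1 : HasDerivAt Ψ (deriv (deriv G) χ - ∑ j ∈ range n,
        deriv (deriv fun w => s (y χ j) (y χ ((j + 1) % n)) w) χ) χ := by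
      apply HasDerivAt.sub
      · exact (hdG2.differentiableAt ((Rc_open _ _).mem_nhds hχ)).hasDerivAt
      · apply HasDerivAt.fun_sum
        intro j _
        exact (hd3 χ hχ j).hasDerivAt
    have h2 : ∀ᶠ χ' in 𝓝 χ, ‖Ψ χ' - Ψ χ‖ ≤ (c / 2 * n) * ‖χ' - χ‖ := by
      filter_upwards [(Rc_open _ _).mem_nhds hχ] with χ' hχ'
      have e1 : Ψ χ = 0 := by
        rw [hΨ]
        simp only
        rw [(hder χ hχ).deriv, sub_self]
      rw [e1, sub_zero, hΨ]
      simp only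
      rw [(hder χ' hχ').deriv, ← Finset.sum_sub_distrib]
      refine (norm_sum_le _ _).trans ?_
      have h3 : ∀ j ∈ range n, ‖deriv (fun w => s (y χ' j) (y χ' ((j + 1) % n)) w) χ' -
          deriv (fun w => s (y χ j) (y χ ((j + 1) % n)) w) χ'‖ ≤ c / 2 * ‖χ' - χ‖ := by
        intro j _
        refine (h3lip h (hyR χ' hχ' j) (hyR χ' hχ' _) (hyR χ hχ j) (hyR χ hχ _) hχ').trans ?_
        rw [← hK2]
        have h4 := hylip χ' hχ' χ hχ j
        have h5 := hylip χ' hχ' χ hχ ((j + 1) % n)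
        calc K2 * (‖y χ' j - y χ j‖ + ‖y χ' ((j + 1) % n) - y χ ((j + 1) % n)‖) ≤
            K2 * (2 * q * ‖χ' - χ‖ + 2 * q * ‖χ' - χ‖) :=
              mul_le_mul_of_nonneg_left (add_le_add h4 h5) hK2p.le
          _ = 4 * K2 * q * ‖χ' - χ‖ := by ring
          _ ≤ c / 2 * ‖χ' - χ‖ := mul_le_mul_of_nonneg_right hqc (norm_nonneg _)
      refine (Finset.sum_le_sum h3).trans (le_of_eq ?_)
      rw [Finset.sum_const, Finset.card_range, nsmul_eq_mul]
      ring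
    rw [← h1.deriv]
    exact norm_deriv_le_of_lip' (by positivity) h2
  refine ⟨G, y, hdG, ?_, ?_, ?_⟩
  · intro χ hχ
    have hχn : -χ ∈ Rc (2 * ρ) (2 * ρ) := neg_Rc hχ
    refine ⟨?_, ?_, ?_⟩
    · have hgd : ∀ u ∈ Rc (3 * ρ) (3 * ρ), ∀ v ∈ Rc (3 * ρ) (3 * ρ),
          gd (sx s (-χ)) u v = gd (sx s χ) u v := by
        intro u hu v hv
        unfold gd sx
        apply Filter.EventuallyEq.deriv_eq
        filter_upwards [(Rc_open _ _).mem_nhds hu] with x hx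
        exact h.evc x hx v hv χ (up h hχ)
      have hPe : Pm s a n (-χ) (Z χ) = Z χ := by
        have h1 : Pm s a n (-χ) (Z χ) = Pm s a n χ (Z χ) := by
          funext j
          have hj : Z χ j ∈ Rc (3 * ρ) (3 * ρ) :=
            up h (small_mem hρ ((norm_le_pi_norm (Z χ) j).trans (hZ χ hχ).1))
          unfold Pm
          rw [hgd (Z χ j) hj (ext0 (Z χ) (((j : ℕ) + n - 1) % n)) (up h (hyR χ hχ _)),
            hgd (Z χ j) hj (ext0 (Z χ) (((j : ℕ) + 1) % n)) (up h (hyR χ hχ _))]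
        rw [h1, (hZ χ hχ).2]
      have hZe : Z (-χ) = Z χ := (huniq (-χ) hχn (Z χ) (hZ χ hχ).1 hPe).symm
      rw [hG]
      simp only [hy, hZe]
      unfold GG
      apply Finset.sum_congr rfl
      intro j _
      rw [h.evc _ (up h (hyR χ hχ j)) _ (up h (hyR χ hχ _)) χ (up h hχ)]
    · have h1 := hsec χ hχ
      have h2 := (Complex.re_le_norm _).trans h1
      rw [Complex.sub_re, Complex.re_sum] at h2
      have h3 : ∑ j ∈ range n, (deriv (deriv fun w => s (y χ j) (y χ ((j + 1) % n)) w) χ).re ≤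
          ∑ _j ∈ range n, -c := by
        apply Finset.sum_le_sum
        intro j _
        exact (h.conc _ (up h (hyR χ hχ j)) _ (up h (hyR χ hχ _)) χ (up h hχ)).2
      rw [Finset.sum_const, Finset.card_range, nsmul_eq_mul] at h3
      linarith
    · have h1 := hsec χ hχ
      have h3 : ‖∑ j ∈ range n, deriv (deriv fun w => s (y χ j) (y χ ((j + 1) % n)) w) χ‖ ≤
          ∑ _j ∈ range n, K2 := by
        refine (norm_sum_le _ _).trans (Finset.sum_le_sum ?_)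
        intro j _
        exact d2 hρ (sl3 h (up h (hyR χ hχ j)) (up h (hyR χ hχ _))) hC.le
          (fun x hx => h.sbd _ (up h (hyR χ hχ j)) _ (up h (hyR χ hχ _)) x hx) hχ
      rw [Finset.sum_const, Finset.card_range, nsmul_eq_mul] at h3
      have h4 := norm_add_le (deriv (deriv G) χ - ∑ j ∈ range n,
        deriv (deriv fun w => s (y χ j) (y χ ((j + 1) % n)) w) χ)
        (∑ j ∈ range n, deriv (deriv fun w => s (y χ j) (y χ ((j + 1) % n)) w) χ)
      rw [sub_add_cancel] at h4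
      linarith
  · intro χ hχ
    refine ⟨?_, ?_, (hder χ hχ).deriv, rfl⟩
    · intro j hj
      refine ⟨hyn χ hχ j, ?_, hcrit χ hχ j hj⟩
      show 0 < (ext0 (Z χ) j).im
      rw [ext0_of _ hj]
      exact im_pos h ha0R hχ (Z χ) (hZ χ hχ).1 (hZ χ hχ).2 ⟨j, hj⟩
    · intro x hx j hj
      set x' : Fin n → ℂ := fun j => x j with hx'
      have hxn : ‖x'‖ ≤ r := by
        rw [pi_norm_le_iff_of_nonneg hrp.le]
        exact fun j => (hx j j.2).1
      have hex : ∀ i < n, ext0 x' i = x i := fun i hi => ext0_of x' hi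
      have hcr : Crit s a n χ (ext0 x') := by
        intro i hi
        have h1 : (i + 1) % n < n := Nat.mod_lt _ hn0
        have h2 : ((i + 1) % n + 1) % n < n := Nat.mod_lt _ hn0
        rw [hex i hi, hex _ h1, hex _ h2]
        exact (hx i hi).2
      have h1 := huniq χ hχ x' hxn ((crit_iff h ha0 hχ x' hxn).1 hcr)
      show x j = ext0 (Z χ) j
      rw [ext0_of _ hj, ← h1]
  · intro m hm ham χ hχ
    have hz : ∀ j < n, ‖y χ j‖ ≤ B / |(a j : ℝ)| := by
      intro j hj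
      show ‖ext0 (Z χ) j‖ ≤ _
      rw [ext0_of _ hj]
      have h1 := Pm_norm (a := a) h hχ (Z χ) (hZ χ hχ).1 ⟨j, hj⟩
      rw [(hZ χ hχ).2, ← hK1] at h1
      refine h1.trans (le_of_eq ?_)
      rw [hB]
      ring
    have hzm : ∀ j < n, ‖y χ j‖ ≤ B / m := by
      intro j hj
      exact (hz j hj).trans (div_le_div_of_nonneg_left hBp.le hm (ham j hj))
    refine ⟨?_, ?_⟩
    · have e1 : G χ - n * s 0 0 χ = ∑ j ∈ range n, (Complex.I * a j * y χ j ^ 2 / (4 * π) +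
          Complex.I * y χ j + (s (y χ j) (y χ ((j + 1) % n)) χ - s 0 0 χ)) := by
        rw [hG]
        unfold GG
        have : (n : ℂ) * s 0 0 χ = ∑ _j ∈ range n, s 0 0 χ := by
          rw [Finset.sum_const, Finset.card_range, nsmul_eq_mul]
        rw [this, ← Finset.sum_sub_distrib]
        apply Finset.sum_congr rfl
        intro j _
        ring
      rw [e1]
      refine (norm_sum_le _ _).trans ?_
      have h2 : ∀ j ∈ range n, ‖Complex.I * a j * y χ j ^ 2 / (4 * π) +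
          Complex.I * y χ j + (s (y χ j) (y χ ((j + 1) % n)) χ - s 0 0 χ)‖ ≤ C' / m := by
        intro j hj
        have hj' := Finset.mem_range.1 hj
        have hk : (j + 1) % n < n := Nat.mod_lt _ hn0
        have hap : 0 < |(a j : ℝ)| := hm.trans_le (ham j hj')
        have h3 : ‖Complex.I * a j * y χ j ^ 2 / (4 * π)‖ ≤ B ^ 2 / (4 * π) / m := by
          rw [norm_div, norm_mul, norm_mul, Complex.norm_I, one_mul, norm_pow,
            Complex.norm_intCast, norm_mul, Complex.norm_real, Real.norm_of_nonneg hpi.le,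
            Complex.norm_ofNat, div_right_comm]
          apply div_le_div_of_nonneg_right _ (by positivity)
          have h4 : |(a j : ℝ)| * ‖y χ j‖ ≤ B := by
            have := hz j hj'
            rw [le_div_iff₀ hap] at this
            linarith
          calc |(a j : ℝ)| * ‖y χ j‖ ^ 2 = (|(a j : ℝ)| * ‖y χ j‖) * ‖y χ j‖ := by ring
            _ ≤ B * (B / m) := mul_le_mul h4 (hzm j hj') (norm_nonneg _) hBp.le
            _ = B ^ 2 / m := by ring
        have h5 : ‖Complex.I * y χ j‖ ≤ B / m := by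
          rw [norm_mul, Complex.norm_I, one_mul]
          exact hzm j hj'
        have h00 : (0 : ℂ) ∈ Rc (2 * ρ) (2 * ρ) := small_mem hρ (by rw [norm_zero]; exact hrp.le)
        have h6 : ‖s (y χ j) (y χ ((j + 1) % n)) χ - s 0 0 χ‖ ≤ 2 * K1 * B / m := by
          refine (slip h (hyR χ hχ j) (hyR χ hχ _) h00 h00 (up h hχ)).trans ?_
          rw [← hK1, sub_zero, sub_zero]
          calc K1 * (‖y χ j‖ + ‖y χ ((j + 1) % n)‖) ≤ K1 * (B / m + B / m) :=
                mul_le_mul_of_nonneg_left (add_le_add (hzm j hj') (hzm _ hk)) hK1p.le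
            _ = 2 * K1 * B / m := by ring
        have h7 : C' / m = B ^ 2 / (4 * π) / m + B / m + 2 * K1 * B / m := by
          rw [hC']; ring
        rw [h7]
        exact (norm_add₃_le).trans (add_le_add (add_le_add h3 h5) h6)
      refine (Finset.sum_le_sum h2).trans (le_of_eq ?_)
      rw [Finset.sum_const, Finset.card_range, nsmul_eq_mul]
    · intro j hj
      exact (hzm j hj).trans (div_le_div_of_nonneg_right hBC' hm.le)

end Pool.Agent.Y571.CRVX
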