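import Pool.Agent.Y481.X.Defs
import Pool.Agent.Y571.CRVX.Ring

/-!
# CRVX
-/

set_option autoImplicit false

namespace Pool.Agent.Y571.CRVX

open Pool.Agent.W711.HT
open scoped Real

theorem crvx : Pool.Agent.Y481.X.S_CRVX := by
  intro ρ₀ c C s dl hS
  obtain ⟨ρ, rfl⟩ : ∃ ρ, ρ₀ = 3 * ρ := ⟨ρ₀ / 3, by ring⟩
  have h : Hs ρ c C s :=
    { hρ := by have := hS.hρ.1; linarith
      hc := hS.hc
      hC := hS.hC
      san := hS.san
      sbd := hS.sbd
      sym := hS.sym
      ev := hS.ev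
      evc := hS.evc
      conc := hS.conc }
  exact ring h hS.hρ.2

end Pool.Agent.Y571.CRVX
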